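import Pool.Agent.H46.SD.Half
import Pool.Graph.R_seed8.TH387.EX.Core

set_option autoImplicit false

/-!
# One degree in four, more than one degree in two

The equivalence of Q1 in degree `d` holds for EVERY number `r ≥ R` of general points and EVERY multiplicity
`m ≥ 1`, for all `d` outside a set of degrees which contains at most the proportion `1 - c` of

* the values `f(n)`, `n < M`, of ANY polynomial `f` with integer coefficients of degree between `1` and `K` whose leading
  coefficient is at most `M ^ κ` (all intervals of length `M` wherever they are, arithmetic progressions with differences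
  `≤ M ^ κ`, squares, `k`-th powers, ...),
* the numbers `b p + h`, `p ≤ M` prime, `p ≡ a mod q` with `|b|, q ≤ M ^ κ` (prime degrees, degrees `p + h` with `h` of any
  size, ...),

up to an error `M ^ (1 - κ)`; here `κ > 0` and the lower bound for `M` depend on `K` only, and `(R, c)` is one of
`(10, 101 / 400)`, `(25, 51 / 100)`, `(33, 85 / 100)`. In particular, counted among all degrees and among all prime degrees,

* for at least a quarter of the degrees there are no exceptions for any `r ≥ 10` and any `m`,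
* for more than half of the degrees there are no exceptions for any `r ≥ 25` and any `m`.

For a single number `r` of points the proportion of the degrees with an exceptional multiplicity is at most `bad r`, where
`bad 10 = 0.047`, `bad 11 = 0.0024`, `bad r = 0.095` for the other `r < 37` and `bad r = 0` for `r ≥ 37`.

Proof. If `d ≥ 300` is exceptional for `r < 37` and some `m`, then `m ≥ 43` and
`-l < 2 d + 3 - √r (2 m + 1) < u` with the shortest windows `(-l, u)` known; for `r = 11, 15` the window is that of the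
lattice argument. For `r ≥ 37`, for `r = 13, 21` and for the squares there are no exceptions (starting files). The vectors
`(d / √r)`, `r` in different square classes, are jointly uniformly distributed modulo one along these sequences with a
power saving, also with respect to unions of boxes; the 22 numbers `r < 37` which have to be considered lie in 20 square
classes, and for the two pairs `12, 27` and `18, 32` the exact sets of good fractional parts of `d / √108` and `d / √288`
are used.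
-/

namespace Pool.Agent.Results.MP_8707bd_ag.OneDegreeInFour

open Pool.Agent.TH387.EX

/-- For `r` general points `Y` (a nonempty open set) the scheme `m Y` is `AH₂(d)`, the equivalence of Q1 holds, and no form
exceptional for `Y` divides all elements of `[I_Y ^ (m)]_d` if this space is not zero. (`IsAH`, `Equivalence`,
`IsExceptional`, `part` and `fat` are defined in `Pool.Agent.TH387.EX.Core` as in the problem file, for the points
`(Y i 0 : Y i 1 : 1)`.) -/
def At (r m d : ℕ) : Prop :=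
  ∃ Φ : MvPolynomial (Fin r × Fin 2) ℂ, Φ ≠ 0 ∧ ∀ Y : Fin r → Fin 2 → ℂ,
    MvPolynomial.eval (fun ij : Fin r × Fin 2 => Y ij.1 ij.2) Φ ≠ 0 →
      IsAH Y m d ∧ Equivalence Y m d ∧
        (part (fat Y m) d ≠ ⊥ → ∀ F, IsExceptional Y F → ∃ G ∈ part (fat Y m) d, ¬ F ∣ G)

lemma at_of (r m d : ℕ) (hr : 10 ≤ r) (h : Pool.Agent.Q54.FM.ED r m d) : At r m d := by
  obtain ⟨F, hF, hF'⟩ := h
  obtain ⟨Φ, hΦ, hΦ'⟩ := core hr (m := m) (S := {d}) ⟨F, hF, fun P hP e he => by
    rw [Set.mem_singleton_iff] at he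
    rw [he]
    exact hF' P hP⟩
  refine ⟨Φ, hΦ, fun Y hY => ?_⟩
  obtain ⟨h1, _, h3⟩ := hΦ' Y hY
  exact ⟨(h1 d (Set.mem_singleton d)).1, (h1 d (Set.mem_singleton d)).2, h3 d⟩

/-- `SparseExceptions κ K M η P`: the property `P` fails rarely in polynomial sequences and along primes.
1. For every polynomial `f` with integer coefficients of degree between `1` and `K`, the leading coefficient being at most
   `M ^ κ` in absolute value (the other coefficients are arbitrary), `P (f n)` fails for at most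
   `η M + M ^ (1 - κ)` of the natural numbers `n < M` with `f n > 0`.
2. For all integers `b ≠ 0` and `h` and natural numbers `q ≥ 1` and `a`, `|b|, q ≤ M ^ κ`, `P (b p + h)` fails for at most
   `η T + M ^ (1 - κ)` of the `T` primes `p ≤ M` with `p ≡ a mod q` (only those with `b p + h > 0` are counted). -/
def SparseExceptions (κ : ℝ) (K M : ℕ) (η : ℝ) (P : ℕ → Prop) : Prop :=
  (∀ f : Polynomial ℤ, 1 ≤ f.natDegree → f.natDegree ≤ K → |(f.leadingCoeff : ℝ)| ≤ (M : ℝ) ^ κ →
    ({n : ℕ | n < M ∧ 0 < f.eval (n : ℤ) ∧ ¬ P (f.eval (n : ℤ)).toNat}.ncard : ℝ) ≤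
      η * M + (M : ℝ) ^ (1 - κ)) ∧
  (∀ b h : ℤ, b ≠ 0 → |(b : ℝ)| ≤ (M : ℝ) ^ κ → ∀ q a : ℕ, 1 ≤ q → (q : ℝ) ≤ (M : ℝ) ^ κ →
    ({p : ℕ | p ≤ M ∧ p.Prime ∧ p ≡ a [MOD q] ∧ 0 < b * p + h ∧ ¬ P (b * p + h).toNat}.ncard : ℝ) ≤
      η * ({p : ℕ | p ≤ M ∧ p.Prime ∧ p ≡ a [MOD q]}.ncard : ℝ) + (M : ℝ) ^ (1 - κ))

/-- upper bounds for the proportions of exceptional degrees for a single number of points -/
noncomputable def bad (r : ℕ) : ℝ :=
  if r = 10 then 47 / 1000 else if r = 11 then 24 / 10000 else if 37 ≤ r then 0 else 95 / 1000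

/-- the lower bound `c` for the proportion of the degrees without exceptions for all numbers `r ≥ R` of points -/
def Bound (R : ℕ) (c : ℝ) : Prop := (R = 10 ∧ c = 101 / 400) ∨ (R = 25 ∧ c = 51 / 100) ∨ (R = 33 ∧ c = 85 / 100)

/-- 1. Let `(R, c)` be one of `(10, 101/400)`, `(25, 51/100)`, `(33, 85/100)`.
* For every `K` there are `0 < κ ≤ 1` and `M₀` such that for all `M ≥ M₀` the degrees `d` for which `At r m d` holds
  for ALL `r ≥ R` and ALL `m ≥ 1` have the proportion at least `c` in all the sequences of `SparseExceptions`, up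
  to `M ^ (1 - κ)`.
* For all `c' < c` and all large `M` these are at least `c' M` of the degrees `d < M`.
* For all `c' < c` and all large `M` these are at least `c' π(M)` of the prime degrees `d ≤ M`.
2. For every single number `r ≥ 10` and every `K` there are `κ` and `M₀` such that for all `M ≥ M₀` the degrees `d` for
which `At r m d` holds for ALL `m ≥ 1` have the proportion at least `1 - bad r` in all these sequences, up to
`M ^ (1 - κ)`. -/
theorem result :
    (∀ (R : ℕ) (c : ℝ), Bound R c →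
      (∀ K : ℕ, ∃ κ : ℝ, 0 < κ ∧ κ ≤ 1 ∧ ∃ M₀ : ℕ, ∀ M : ℕ, M₀ ≤ M →
        SparseExceptions κ K M (1 - c) (fun d => ∀ r : ℕ, R ≤ r → ∀ m : ℕ, 1 ≤ m → At r m d)) ∧
      (∀ c' : ℝ, c' < c → ∃ M₁ : ℕ, ∀ M : ℕ, M₁ ≤ M →
        c' * (M : ℝ) ≤ ({d : ℕ | d < M ∧ 0 < d ∧ ∀ r : ℕ, R ≤ r → ∀ m : ℕ, 1 ≤ m → At r m d}.ncard : ℝ)) ∧
      (∀ c' : ℝ, c' < c → ∃ M₁ : ℕ, ∀ M : ℕ, M₁ ≤ M →
        c' * (Nat.primeCounting M : ℝ) ≤
          ({p : ℕ | p ≤ M ∧ p.Prime ∧ ∀ r : ℕ, R ≤ r → ∀ m : ℕ, 1 ≤ m → At r m p}.ncard : ℝ))) ∧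
    (∀ r : ℕ, 10 ≤ r → ∀ K : ℕ, ∃ κ : ℝ, 0 < κ ∧ κ ≤ 1 ∧ ∃ M₀ : ℕ, ∀ M : ℕ, M₀ ≤ M →
      SparseExceptions κ K M (bad r) (fun d => ∀ m : ℕ, 1 ≤ m → At r m d)) := by
  have hD : Pool.Agent.H46.SD.DIn fun r d => ∀ m : ℕ, 1 ≤ m → At r m d :=
    Pool.Agent.H46.SD.dIn.mono (fun r d hr _ h m hm => at_of r m d hr (h m hm))
      (fun r hr d h m hm => at_of r m d (by omega) (h m hm))
  refine ⟨fun R c hRc => ?_, fun r hr K => ?_⟩
  · have key : ∀ K : ℕ, ∃ κ : ℝ, 0 < κ ∧ κ ≤ 1 ∧ ∃ M₀ : ℕ, 2 ≤ M₀ ∧ ∀ M : ℕ, M₀ ≤ M →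
        Pool.Agent.Q54.FM.Sparse κ K M (1 - c) (fun d => ∀ r : ℕ, R ≤ r → ∀ m : ℕ, 1 ≤ m → At r m d) := by
      intro K
      rcases hRc with ⟨rfl, rfl⟩ | ⟨rfl, rfl⟩ | ⟨rfl, rfl⟩
      · exact Pool.Agent.H46.SD.all_degrees2 _ hD K
      · have h := Pool.Agent.H46.SD.half_degrees _ hD K
        norm_num at h ⊢
        exact h
      · have h := Pool.Agent.H46.SD.most_degrees _ hD K
        norm_num at h ⊢
        exact h
    refine ⟨fun K => ?_, fun c' hc' => ?_, fun c' hc' => ?_⟩
    · obtain ⟨κ, hκ, hκ1, M₀, -, h'⟩ := key K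
      exact ⟨κ, hκ, hκ1, M₀, h'⟩
    · exact (Pool.Agent.Q54.FM.density_of_sparse' hc' _ (key 1)).1
    · exact (Pool.Agent.Q54.FM.density_of_sparse' hc' _ (key 1)).2
  · obtain ⟨κ, hκ, hκ1, M₀, -, h'⟩ := Pool.Agent.H46.SD.one_degree_bad _ hD hr K
    exact ⟨κ, hκ, hκ1, M₀, h'⟩

end Pool.Agent.Results.MP_8707bd_ag.OneDegreeInFour
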