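import Pool.Agent.H46.SD.HalfM
import Pool.Graph.R_seed8.TH387.EX.Core

set_option autoImplicit false

/-!
# Explicit proportions of the multiplicities, all numbers of points and all degrees

For at least `1 / 2700` of the multiplicities `m`, Q1 holds for EVERY number `r ≥ 10` of points and EVERY degree `d`: for a
general set `Y` of `r` points of the complex projective plane `m Y` is `AH₂(d)` and the equivalence of Q1 holds. For
`14 %` of the multiplicities this holds for EVERY `r ≥ 31` and EVERY degree, for more than a third of the multiplicities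
for EVERY `r ≥ 33`, and for `72 %` for EVERY `r ≥ 35`. These proportions `c` (`1 / 2650` for `r ≥ 10`) are true, up to an
error `M ^ (1 - κ)`, for

* the values `f(n)`, `n < M`, of ANY polynomial `f` with integer coefficients of degree between `1` and `K` whose leading
  coefficient is at most `M ^ κ` (all intervals of length `M` wherever they are, arithmetic progressions with differences
  `≤ M ^ κ`, squares, `k`-th powers, ...),
* the numbers `b p + h`, `p ≤ M` prime, `p ≡ a mod q` with `|b|, q ≤ M ^ κ`.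

For a single number `r` of points the proportion of the multiplicities with an exceptional degree is at most `bad r`, where
`bad 10 = 0.147`, `bad 11 = 0.0027`, `bad 12 = 0.132`, `bad r = 0.442` for the other `r < 37` and `bad r = 0` for `r ≥ 37`.

Proof. Let `m ≥ 43` and `10 ≤ r < 37`, `r` not a square and different from `13, 21`. The degree `d` can be exceptional only if
`-l < 2 d + 3 - √r (2 m + 1) < u` with the shortest windows `(-l, u)` known, for `r = 11, 15` only if moreover `3 ∣ d` and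
`d` is in the window of the lattice argument. For `r ≥ 37`, for `r = 13, 21` and for the squares there are no exceptions
(starting files). The vectors of the multiples of `√r`, `r` in different square classes, are jointly uniformly distributed
modulo one along these sequences with a power saving, also with respect to unions of boxes; for the two pairs `12, 27` and
`18, 32` in the same square class the exact sets of good fractional parts of `√3 m` and `√2 m` are used.
-/

namespace Pool.Agent.Results.MP_8707bd_ag.ProportionOfMultiplicities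

open Pool.Agent.TH387.EX

/-- For `r` general points `Y` (one nonempty open set for all degrees) and EVERY degree `d`: the scheme `m Y` is
`AH₂(d)`, the equivalence of Q1 holds, and no form exceptional for `Y` divides all elements of `[I_Y ^ (m)]_d` if this
space is not zero. (`IsAH`, `Equivalence`, `IsExceptional`, `part` and `fat` are defined in `Pool.Agent.TH387.EX.Core` as
in the problem file, for the points `(Y i 0 : Y i 1 : 1)`.) -/
def AllDegrees (r m : ℕ) : Prop :=
  ∃ Φ : MvPolynomial (Fin r × Fin 2) ℂ, Φ ≠ 0 ∧ ∀ Y : Fin r → Fin 2 → ℂ,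
    MvPolynomial.eval (fun ij : Fin r × Fin 2 => Y ij.1 ij.2) Φ ≠ 0 → ∀ d : ℕ,
      IsAH Y m d ∧ Equivalence Y m d ∧
        (part (fat Y m) d ≠ ⊥ → ∀ F, IsExceptional Y F → ∃ G ∈ part (fat Y m) d, ¬ F ∣ G)

lemma allDegrees_of (r m : ℕ) (hr : 10 ≤ r) (h : Pool.Agent.Q54.FM.Gd r m) : AllDegrees r m := by
  obtain ⟨F, hF, hF'⟩ := h
  obtain ⟨Φ, hΦ, hΦ'⟩ := core hr (m := m) (S := Set.univ) ⟨F, hF, fun P hP d _ => hF' P hP d⟩
  refine ⟨Φ, hΦ, fun Y hY d => ?_⟩
  obtain ⟨h1, _, h3⟩ := hΦ' Y hY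
  exact ⟨(h1 d (Set.mem_univ d)).1, (h1 d (Set.mem_univ d)).2, h3 d⟩

/-- `SparseExceptions κ K M η P`: the property `P` fails rarely in polynomial sequences and along primes.
1. For every polynomial `f` with integer coefficients of degree between `1` and `K`, the leading coefficient being at most
   `M ^ κ` in absolute value (the other coefficients are arbitrary), `P (f n)` fails for at most
   `η M + M ^ (1 - κ)` of the natural numbers `n < M` with `f n > 0`.
2. For all integers `b ≠ 0` and `h` and natural numbers `q ≥ 1` and `a`, `|b|, q ≤ M ^ κ`, `P (b p + h)` fails for at most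
   `η T + M ^ (1 - κ)` of the `T` primes `p ≤ M` with `p ≡ a mod q` (only those with `b p + h > 0` are counted). -/
def SparseExceptions (κ : ℝ) (K M : ℕ) (η : ℝ) (P : ℕ → Prop) : Prop :=
  (∀ f : Polynomial ℤ, 1 ≤ f.natDegree → f.natDegree ≤ K → |(f.leadingCoeff : ℝ)| ≤ (M : ℝ) ^ κ →
    ({n : ℕ | n < M ∧ 0 < f.eval (n : ℤ) ∧ ¬ P (f.eval (n : ℤ)).toNat}.ncard : ℝ) ≤
      η * M + (M : ℝ) ^ (1 - κ)) ∧
  (∀ b h : ℤ, b ≠ 0 → |(b : ℝ)| ≤ (M : ℝ) ^ κ → ∀ q a : ℕ, 1 ≤ q → (q : ℝ) ≤ (M : ℝ) ^ κ →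
    ({p : ℕ | p ≤ M ∧ p.Prime ∧ p ≡ a [MOD q] ∧ 0 < b * p + h ∧ ¬ P (b * p + h).toNat}.ncard : ℝ) ≤
      η * ({p : ℕ | p ≤ M ∧ p.Prime ∧ p ≡ a [MOD q]}.ncard : ℝ) + (M : ℝ) ^ (1 - κ))

/-- upper bounds for the proportions of exceptional multiplicities for a single number of points -/
noncomputable def bad (r : ℕ) : ℝ :=
  if r = 10 then 147 / 1000 else if r = 11 then 27 / 10000 else if r = 12 then 132 / 1000 else if 37 ≤ r then 0 else
  442 / 1000

/-- the lower bound `c` for the proportion of the multiplicities without exceptions for all numbers `r ≥ R` of points -/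
def Bound (R : ℕ) (c : ℝ) : Prop :=
  (R = 10 ∧ c = 1 / 2650) ∨ (R = 31 ∧ c = 14 / 100) ∨ (R = 33 ∧ c = 336 / 1000) ∨ (R = 35 ∧ c = 72 / 100)

/-- 1. Let `(R, c)` be one of `(10, 1/2650)`, `(31, 14/100)`, `(33, 336/1000)`, `(35, 72/100)`.
* For every `K` there are `0 < κ ≤ 1` and `M₀` such that for all `M ≥ M₀` the multiplicities `m` for which
  `AllDegrees r m` holds for EVERY `r ≥ R` have the proportion at least `c` in all the sequences of
  `SparseExceptions`, up to `M ^ (1 - κ)`.
* For all `c' < c` and all large `M` these are at least `c' M` of the multiplicities `m < M`.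
* For all `c' < c` and all large `M` these are at least `c' π(M)` of the prime multiplicities `m ≤ M`.
2. For every single number `r ≥ 10` and every `K` there are `κ` and `M₀` such that for all `M ≥ M₀` the multiplicities `m`
with `AllDegrees r m` have the proportion at least `1 - bad r` in all these sequences, up to `M ^ (1 - κ)`. -/
theorem result :
    (∀ (R : ℕ) (c : ℝ), Bound R c →
      (∀ K : ℕ, ∃ κ : ℝ, 0 < κ ∧ κ ≤ 1 ∧ ∃ M₀ : ℕ, ∀ M : ℕ, M₀ ≤ M →
        SparseExceptions κ K M (1 - c) (fun m => ∀ r : ℕ, R ≤ r → AllDegrees r m)) ∧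
      (∀ c' : ℝ, c' < c → ∃ M₁ : ℕ, ∀ M : ℕ, M₁ ≤ M →
        c' * (M : ℝ) ≤ ({m : ℕ | m < M ∧ 0 < m ∧ ∀ r : ℕ, R ≤ r → AllDegrees r m}.ncard : ℝ)) ∧
      (∀ c' : ℝ, c' < c → ∃ M₁ : ℕ, ∀ M : ℕ, M₁ ≤ M →
        c' * (Nat.primeCounting M : ℝ) ≤
          ({p : ℕ | p ≤ M ∧ p.Prime ∧ ∀ r : ℕ, R ≤ r → AllDegrees r p}.ncard : ℝ))) ∧
    (∀ r : ℕ, 10 ≤ r → ∀ K : ℕ, ∃ κ : ℝ, 0 < κ ∧ κ ≤ 1 ∧ ∃ M₀ : ℕ, ∀ M : ℕ, M₀ ≤ M →
      SparseExceptions κ K M (bad r) (fun m => AllDegrees r m)) := by
  have hG : Pool.Agent.H46.SD.MIn AllDegrees := Pool.Agent.H46.SD.mIn.mono allDegrees_of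
  refine ⟨fun R c hRc => ?_, fun r hr K => ?_⟩
  · have key : ∀ K : ℕ, ∃ κ : ℝ, 0 < κ ∧ κ ≤ 1 ∧ ∃ M₀ : ℕ, 2 ≤ M₀ ∧ ∀ M : ℕ, M₀ ≤ M →
        Pool.Agent.Q54.FM.Sparse κ K M (1 - c) (fun m => ∀ r : ℕ, R ≤ r → AllDegrees r m) := by
      intro K
      rcases hRc with ⟨rfl, rfl⟩ | ⟨rfl, rfl⟩ | ⟨rfl, rfl⟩ | ⟨rfl, rfl⟩
      · exact Pool.Agent.H46.SD.all_mults2 _ hG K
      · have h := Pool.Agent.H46.SD.some_mults _ hG K
        norm_num at h ⊢
        exact h
      · have h := Pool.Agent.H46.SD.third_mults _ hG K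
        norm_num at h ⊢
        exact h
      · have h := Pool.Agent.H46.SD.most_mults _ hG K
        norm_num at h ⊢
        exact h
    refine ⟨fun K => ?_, fun c' hc' => ?_, fun c' hc' => ?_⟩
    · obtain ⟨κ, hκ, hκ1, M₀, -, h'⟩ := key K
      exact ⟨κ, hκ, hκ1, M₀, h'⟩
    · exact (Pool.Agent.Q54.FM.density_of_sparse' hc' _ (key 1)).1
    · exact (Pool.Agent.Q54.FM.density_of_sparse' hc' _ (key 1)).2
  · obtain ⟨κ, hκ, hκ1, M₀, -, h'⟩ := Pool.Agent.H46.SD.one_mult_bad _ hG hr K
    exact ⟨κ, hκ, hκ1, M₀, h'⟩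

end Pool.Agent.Results.MP_8707bd_ag.ProportionOfMultiplicities
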