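import Pool.Agent.H96.FP.G
import Pool.Graph.R_seed8.TH387.EX.Core

/-!
# Degrees `a v + g + b` in arbitrary thin families

For more than a quarter of the members of EVERY family of degrees of the following kind Q1 holds for EVERY number
`r ≥ 10` of points and EVERY multiplicity `m ≥ 1` (and for a single number `r` of points and all multiplicities for more than
nine tenths of them, for instance for all but `0.0464` if `r = 10` and for all but `0.0024` if `r = 11`): the degrees are
`d = a v(z) + g(z) + b`, `z ∈ Z`, where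

* `v : Z → ℤ` is ANY finite family of integers with `|v| ≤ N` whose additive energy of some order `p` is at most `N ^ η`
  times `|Z| ^ (2 p) / N`, the smallest possible value (such a family may have only `N ^ ε` members; any dense subset of
  `{1, ..., N}` and the values of polynomials at dense sets are examples),
* `g : Z → ℤ` is an ARBITRARY function and `b` is an ARBITRARY integer,
* `a` is any integer outside of a very sparse exceptional set, which does not depend on `b`: every interval of length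
  `N ^ c` contains at most `N ^ δ` members of it. For a single `r` every `c < 1` is allowed.

Proof. The large sieve inequality, applied to the `p`-th power of the exponential sum `∑ c(z) e(β a v(z))`, whose
coefficients are counted by the energy, shows that for a given frequency `β` only few of the integers `a` in an interval
are exceptional, because the points `β a` are well separated by a quantitative form of the linear independence of square
roots. A finite form of Weyl's criterion for unions of boxes and the windows for the exceptional degrees which are known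
(`Pool.Agent.H46.SD`) give the theorem.
-/

set_option autoImplicit false

namespace Pool.Agent.Results.MP_8707bd_ag.ThinFamiliesOfDegrees

open Finset Polynomial Pool.Agent.TH387.EX

/-- For `r` general points `Y` (a nonempty open set) the scheme `m Y` is `AH₂(d)`, the equivalence of Q1 holds, and no form
exceptional for `Y` divides all elements of `[I_Y ^ (m)]_d` if this space is not zero. (`IsAH`, `Equivalence`,
`IsExceptional`, `part` and `fat` are defined in `Pool.Agent.TH387.EX.Core` as in the problem file, for the points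
`(Y i 0 : Y i 1 : 1)`.) -/
def At (r m d : ℕ) : Prop :=
  ∃ Φ : MvPolynomial (Fin r × Fin 2) ℂ, Φ ≠ 0 ∧ ∀ Y : Fin r → Fin 2 → ℂ,
    MvPolynomial.eval (fun ij : Fin r × Fin 2 => Y ij.1 ij.2) Φ ≠ 0 →
      IsAH Y m d ∧ Equivalence Y m d ∧
        (part (fat Y m) d ≠ ⊥ → ∀ F, IsExceptional Y F → ∃ G ∈ part (fat Y m) d, ¬ F ∣ G)

/-- `At r m d` for EVERY multiplicity `m ≥ 1` -/
def AllMultiplicities (r d : ℕ) : Prop := ∀ m : ℕ, 1 ≤ m → At r m d

/-- The additive energy of order `h` of a finite family of integers: the number of the solutions of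
`v (i 1) + ... + v (i h) = v (j 1) + ... + v (j h)`. -/
noncomputable def energy (h : ℕ) {ι : Type} [Fintype ι] (v : ι → ℤ) : ℕ :=
  Nat.card {q : (Fin h → ι) × (Fin h → ι) // ∑ j, v (q.1 j) = ∑ j, v (q.2 j)}

/-- Every interval of length `X` contains at most `Y` members of `E`. -/
def Few (E : Set ℤ) (X Y : ℝ) : Prop :=
  ∀ x : ℤ, ({a : ℤ | a ∈ E ∧ x ≤ a ∧ (a : ℝ) ≤ x + X}.ncard : ℝ) ≤ Y

open Classical in
/-- `P` fails for at most the proportion `lam` of the members of thin families: for all `p` and `δ > 0` there are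
`η, κ > 0` and `N₀` such that for all `N ≥ N₀` and all finite families `v : Z → ℤ` with `|v| ≤ N` and
`energy p v ≤ N ^ η |Z| ^ (2 p) / N` and ALL functions `g : Z → ℤ` the following holds for all integers `a` outside of a
set which has at most `N ^ δ` members in every interval of length `N ^ c`, and for ALL integers `b`: `P (a v z + g z + b)`
fails for at most `(lam + N ^ (-κ)) |Z|` of the `z ∈ Z` with `a v z + g z + b > 0`. -/
def InFamilies (c lam : ℝ) (P : ℕ → Prop) : Prop :=
  ∀ (p : ℕ) (δ : ℝ), 0 < δ → ∃ η κ : ℝ, 0 < η ∧ 0 < κ ∧ ∃ N₀ : ℕ, ∀ N : ℕ, N₀ ≤ N →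
    ∀ (Z : Type) [Fintype Z] (v g : Z → ℤ), (∀ z, |v z| ≤ N) →
      (energy p v : ℝ) * N ≤ (N : ℝ) ^ η * (Fintype.card Z : ℝ) ^ (2 * p) →
      ∃ E : Set ℤ, Few E ((N : ℝ) ^ c) ((N : ℝ) ^ δ) ∧ ∀ a : ℤ, a ∉ E → ∀ b : ℤ,
        (((univ : Finset Z).filter fun z => 0 < a * v z + g z + b ∧ ¬ P (a * v z + g z + b).toNat).card : ℝ) ≤
          (lam + (N : ℝ) ^ (-κ)) * Fintype.card Z

open Classical in
/-- The same for the families `a f(n) + g(n) + b`, `n ∈ F`, where `f` is a fixed polynomial with integer coefficients of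
degree `k ≥ 1`, `F ⊆ {1, ..., X}` is an ARBITRARY set with at least `X ^ (1 - η)` elements, and `g` is an ARBITRARY function
on the natural numbers: the exceptional set of the integers `a` has at most `X ^ δ` members in every interval of length
`X ^ (c k)`. -/
def InPolynomials (c lam : ℝ) (P : ℕ → Prop) : Prop :=
  ∀ f : ℤ[X], 1 ≤ f.natDegree → ∀ δ : ℝ, 0 < δ → ∃ η κ : ℝ, 0 < η ∧ 0 < κ ∧ ∃ X₀ : ℕ, ∀ X : ℕ, X₀ ≤ X →
    ∀ F : Finset ℕ, F ⊆ Icc 1 X → (X : ℝ) ^ (1 - η) ≤ F.card → ∀ g : ℕ → ℤ,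
      ∃ E : Set ℤ, Few E ((X : ℝ) ^ (c * f.natDegree)) ((X : ℝ) ^ δ) ∧ ∀ a : ℤ, a ∉ E → ∀ b : ℤ,
        ((F.filter fun n : ℕ => 0 < a * f.eval (n : ℤ) + g n + b ∧
          ¬ P (a * f.eval (n : ℤ) + g n + b).toNat).card : ℝ) ≤ (lam + (X : ℝ) ^ (-κ)) * F.card

/-- the bounds for the proportion of the exceptions for `r` points; `0` for the other `r ≥ 10` -/
noncomputable def bad : ℕ → ℝ
  | 10 => 0.0464 | 11 => 0.0024 | 12 => 0.038 | 14 => 0.0435 | 15 => 0.0144 | 17 => 0.0781 | 18 => 0.0615 | 19 => 0.0949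
  | 20 => 0.0745 | 22 => 0.0941 | 23 => 0.0542 | 24 => 0.0694 | 26 => 0.0802 | 27 => 0.0752 | 28 => 0.0794 | 29 => 0.071
  | 30 => 0.061 | 31 => 0.0674 | 32 => 0.0586 | 33 => 0.0567 | 34 => 0.053 | 35 => 0.0473 | _ => 0

lemma at_of (r m d : ℕ) (hr : 10 ≤ r) (h : Pool.Agent.Q54.FM.ED r m d) : At r m d := by
  obtain ⟨F, hF, hF'⟩ := h
  obtain ⟨Φ, hΦ, hΦ'⟩ := core hr (m := m) (S := {d}) ⟨F, hF, fun P hP e he => by
    rw [Set.mem_singleton_iff] at he
    rw [he]
    exact hF' P hP⟩
  refine ⟨Φ, hΦ, fun Y hY => ?_⟩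
  obtain ⟨h1, _, h3⟩ := hΦ' Y hY
  exact ⟨(h1 d (Set.mem_singleton d)).1, (h1 d (Set.mem_singleton d)).2, h3 d⟩

lemma both {c lam : ℝ} {P : ℕ → Prop} (hc : 0 < c) (h : Pool.Agent.H96.FP.InFamilies c lam P) :
    InFamilies c lam P ∧ InPolynomials c lam P :=
  ⟨h, fun f hf δ hδ => Pool.Agent.H96.FP.poly_families hc h f hf δ hδ⟩

lemma bad_nonneg (r : ℕ) : 0 ≤ bad r := by
  unfold bad
  split <;> norm_num

lemma wb {r : ℕ} {p c : ℝ} (hp0 : 0 < p) (hp : p ^ 2 ≤ (r : ℝ))
    (hc : ((Pool.Agent.H46.SD.wl r : ℝ) / 1000 + (Pool.Agent.H46.SD.wu r : ℝ) / 1000) / (2 * p) ≤ c) :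
    ((Pool.Agent.H46.SD.wl r : ℝ) / 1000 + (Pool.Agent.H46.SD.wu r : ℝ) / 1000) / (2 * Real.sqrt r) ≤ c := by
  have h1 : p ≤ Real.sqrt r := Real.le_sqrt_of_sq_le hp
  refine le_trans ?_ hc
  exact div_le_div_of_nonneg_left (by positivity) (by positivity) (by linarith)

lemma w_bad {r : ℕ} (hr : r ∈ Pool.Agent.H46.SD.L20) :
    ((Pool.Agent.H46.SD.wl r : ℝ) / 1000 + (Pool.Agent.H46.SD.wu r : ℝ) / 1000) / (2 * Real.sqrt r) ≤ bad r := by
  simp only [Pool.Agent.H46.SD.L20, List.mem_cons, List.not_mem_nil, or_false] at hr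
  rcases hr with rfl | rfl | rfl | rfl | rfl | rfl | rfl | rfl | rfl | rfl | rfl | rfl | rfl | rfl | rfl | rfl |
    rfl | rfl | rfl | rfl
  · exact wb (p := 3.16227) (by norm_num) (by norm_num) (by norm_num [bad, Pool.Agent.H46.SD.wl, Pool.Agent.H46.SD.wu])
  · exact wb (p := 3.4641) (by norm_num) (by norm_num) (by norm_num [bad, Pool.Agent.H46.SD.wl, Pool.Agent.H46.SD.wu])
  · exact wb (p := 3.741657) (by norm_num) (by norm_num) (by norm_num [bad, Pool.Agent.H46.SD.wl, Pool.Agent.H46.SD.wu])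
  · exact wb (p := 4.1231) (by norm_num) (by norm_num) (by norm_num [bad, Pool.Agent.H46.SD.wl, Pool.Agent.H46.SD.wu])
  · exact wb (p := 4.2426) (by norm_num) (by norm_num) (by norm_num [bad, Pool.Agent.H46.SD.wl, Pool.Agent.H46.SD.wu])
  · exact wb (p := 4.35889) (by norm_num) (by norm_num) (by norm_num [bad, Pool.Agent.H46.SD.wl, Pool.Agent.H46.SD.wu])
  · exact wb (p := 4.47213) (by norm_num) (by norm_num) (by norm_num [bad, Pool.Agent.H46.SD.wl, Pool.Agent.H46.SD.wu])
  · exact wb (p := 4.69041) (by norm_num) (by norm_num) (by norm_num [bad, Pool.Agent.H46.SD.wl, Pool.Agent.H46.SD.wu])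
  · exact wb (p := 4.79583) (by norm_num) (by norm_num) (by norm_num [bad, Pool.Agent.H46.SD.wl, Pool.Agent.H46.SD.wu])
  · exact wb (p := 4.89897) (by norm_num) (by norm_num) (by norm_num [bad, Pool.Agent.H46.SD.wl, Pool.Agent.H46.SD.wu])
  · exact wb (p := 5.09901) (by norm_num) (by norm_num) (by norm_num [bad, Pool.Agent.H46.SD.wl, Pool.Agent.H46.SD.wu])
  · exact wb (p := 5.19615) (by norm_num) (by norm_num) (by norm_num [bad, Pool.Agent.H46.SD.wl, Pool.Agent.H46.SD.wu])
  · exact wb (p := 5.2915) (by norm_num) (by norm_num) (by norm_num [bad, Pool.Agent.H46.SD.wl, Pool.Agent.H46.SD.wu])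
  · exact wb (p := 5.38516) (by norm_num) (by norm_num) (by norm_num [bad, Pool.Agent.H46.SD.wl, Pool.Agent.H46.SD.wu])
  · exact wb (p := 5.47722) (by norm_num) (by norm_num) (by norm_num [bad, Pool.Agent.H46.SD.wl, Pool.Agent.H46.SD.wu])
  · exact wb (p := 5.56776) (by norm_num) (by norm_num) (by norm_num [bad, Pool.Agent.H46.SD.wl, Pool.Agent.H46.SD.wu])
  · exact wb (p := 5.6568) (by norm_num) (by norm_num) (by norm_num [bad, Pool.Agent.H46.SD.wl, Pool.Agent.H46.SD.wu])
  · exact wb (p := 5.74456) (by norm_num) (by norm_num) (by norm_num [bad, Pool.Agent.H46.SD.wl, Pool.Agent.H46.SD.wu])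
  · exact wb (p := 5.83095) (by norm_num) (by norm_num) (by norm_num [bad, Pool.Agent.H46.SD.wl, Pool.Agent.H46.SD.wu])
  · exact wb (p := 5.91607) (by norm_num) (by norm_num) (by norm_num [bad, Pool.Agent.H46.SD.wl, Pool.Agent.H46.SD.wu])

lemma bad11 {r : ℕ} (hr : r = 11 ∨ r = 15) :
    (Real.sqrt r - 3) ^ 2 / (2 * Real.sqrt r * (Real.sqrt r + 3)) ≤ bad r := by
  have h1 : Pool.Agent.H46.SD.l2 r = (Real.sqrt r - 3) ^ 2 / (2 * Real.sqrt r * (Real.sqrt r + 3)) := by
    unfold Pool.Agent.H46.SD.l2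
    rw [if_pos hr]
  rw [← h1]
  rcases hr with rfl | rfl
  · have h2 := Pool.Agent.H46.SD.lowd_single 11 (by decide) (by decide) (by decide)
    norm_num [Pool.Agent.H46.SD.lowd] at h2
    norm_num [bad]
    linarith
  · have h2 := Pool.Agent.H46.SD.lowd_single 15 (by decide) (by decide) (by decide)
    norm_num [Pool.Agent.H46.SD.lowd] at h2
    norm_num [bad]
    linarith

/-- 1. There is a constant `c > 0` such that the degrees `d` for which `At r m d` holds for EVERY `r ≥ 10` and EVERY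
`m ≥ 1` have the proportion at least `101 / 400` in all the families of `InFamilies` and of `InPolynomials`.
2. For a single `r ≥ 10` and every `c` with `0 < c < 1` the proportion of the degrees `d` in these families for which
`At r m d` fails for some `m ≥ 1` is at most `bad r`, and `bad r ≤ 0.0949`. -/
theorem result :
    (∃ c : ℝ, 0 < c ∧ InFamilies c (1 - 101 / 400) (fun d => ∀ r : ℕ, 10 ≤ r → AllMultiplicities r d) ∧
      InPolynomials c (1 - 101 / 400) (fun d => ∀ r : ℕ, 10 ≤ r → AllMultiplicities r d)) ∧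
    (∀ r : ℕ, 10 ≤ r → bad r ≤ 0.0949 ∧ ∀ c : ℝ, 0 < c → c < 1 → InFamilies c (bad r) (AllMultiplicities r) ∧
      InPolynomials c (bad r) (AllMultiplicities r)) := by
  have hD : Pool.Agent.H46.SD.DIn AllMultiplicities :=
    Pool.Agent.H46.SD.dIn.mono (fun r d hr _ h m hm => at_of r m d hr (h m hm))
      (fun r hr d h m hm => at_of r m d (by omega) (h m hm))
  constructor
  · obtain ⟨c, hc, h⟩ := Pool.Agent.H96.FP.all_degs AllMultiplicities hD
    exact ⟨c, hc, both hc h⟩
  · intro r hr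
    refine ⟨?_, fun c hc0 hc1 => both hc0 ?_⟩
    · unfold bad
      split <;> norm_num
    · obtain ⟨h1, h2, h3⟩ := Pool.Agent.H96.FP.one_deg AllMultiplicities hD (r := r) hc0 hc1
      by_cases hL : r ∈ Pool.Agent.H46.SD.L20
      · exact (h1 hL).mono (w_bad hL)
      by_cases h11 : r = 11 ∨ r = 15
      · exact (h2 h11).mono (bad11 h11)
      · have key : 37 ≤ r ∨ r = 13 ∨ r = 21 ∨ (10 ≤ r ∧ IsSquare r) := by
          rcases Nat.lt_or_ge r 37 with hlt | hge
          · have h5 : ∀ r : Fin 37, 10 ≤ r.1 → r.1 ∉ Pool.Agent.H46.SD.L20 → ¬ (r.1 = 11 ∨ r.1 = 15) →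
                r.1 = 13 ∨ r.1 = 21 ∨ (10 ≤ r.1 ∧ IsSquare r.1) := by
              decide +kernel
            exact Or.inr (h5 ⟨r, hlt⟩ hr hL h11)
          · exact Or.inl hge
        exact (h3 key).mono (bad_nonneg r)

end Pool.Agent.Results.MP_8707bd_ag.ThinFamiliesOfDegrees
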